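import Pool.Agent.Helper52.SM.Goals

/-!
# LEN: the length of the pruned list
-/

set_option autoImplicit false

namespace Pool.Agent.Helper60.SM

open Pool.Agent.Helper52.SM Pool.Agent.Helper78 Pool.Agent.Helper78.DT
open scoped Classical

theorem mem_step {act : PM.View → ℕ} {c : ℕ} {x : List Bool} {b : ℕ → Bool} {i : ℕ} {M : PM.Mem}
    (h : mem act c x b (i + 1) = some M) : ∃ M₀, mem act c x b i = some M₀ ∧
      (M = M₀ ∨ ∃ a, M = M₀ ++ [(i, a)]) := by
  rw [mem] at h
  cases hm : mem act c x b i with
  | none => rw [hm] at h; simp at h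
  | some M₀ =>
    rw [hm] at h
    refine ⟨M₀, rfl, ?_⟩
    simp only at h
    split_ifs at h with h1 h2
    · exact Or.inr ⟨_, (Option.some.inj h).symm⟩
    · exact Or.inl (Option.some.inj h).symm

theorem mem_lt {act : PM.View → ℕ} {c : ℕ} {x : List Bool} {b : ℕ → Bool} :
    ∀ (i : ℕ) (M : PM.Mem), mem act c x b i = some M → ∀ e ∈ M, e.1 < i := by
  intro i
  induction i with
  | zero =>
    intro M h e he
    rw [mem] at h
    rw [← Option.some.inj h] at he
    simp at he
  | succ i ih =>
    intro M h e he
    obtain ⟨M₀, h0, h1 | ⟨a, h1⟩⟩ := mem_step h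
    · subst h1
      exact (ih _ h0 e he).trans (Nat.lt_succ_self i)
    · subst h1
      rcases List.mem_append.1 he with h2 | h2
      · exact (ih _ h0 e h2).trans (Nat.lt_succ_self i)
      · rw [List.mem_singleton.1 h2]
        exact Nat.lt_succ_self i

theorem mem_old {act : PM.View → ℕ} {c : ℕ} {x : List Bool} {b : ℕ → Bool} {i : ℕ} {M : PM.Mem}
    (hM : ∀ e ∈ M, e.1 < i) (h : mem act c x b (i + 1) = some M) :
    mem act c x b i = some M := by
  obtain ⟨M₀, h0, h1 | ⟨a, h1⟩⟩ := mem_step h
  · rw [h0, h1]
  · have := hM (i, a) (by rw [h1]; simp)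
    exact absurd this (lt_irrefl i)

theorem mem_new {act : PM.View → ℕ} {c : ℕ} {x : List Bool} {b : ℕ → Bool} {i : ℕ} {M : PM.Mem}
    {a : List Bool} (h : mem act c x b (i + 1) = some (M ++ [(i, a)])) :
    mem act c x b i = some M := by
  obtain ⟨M₀, h0, h1 | ⟨a', h1⟩⟩ := mem_step h
  · have := mem_lt i M₀ h0 (i, a) (by rw [← h1]; simp)
    exact absurd this (lt_irrefl i)
  · rw [h0]
    have := List.append_inj_left' h1 rfl
    rw [this]

theorem sum_pr {Ω ι α : Type*} [Fintype Ω] (S : Finset ι) (Z : Ω → Option α) (h : ι → α)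
    (hh : Function.Injective h) (F : Ω → Prop)
    (hF : ∀ ω, ∀ o ∈ S, Z ω = some (h o) → F ω) :
    ∑ o ∈ S, pr (fun ω => Z ω = some (h o)) ≤ pr F := by
  unfold pr av
  rw [← Finset.sum_div, Finset.sum_comm]
  refine div_le_div_of_nonneg_right (Finset.sum_le_sum fun ω _ => ?_) (Nat.cast_nonneg _)
  by_cases hex : ∃ o ∈ S, Z ω = some (h o)
  · obtain ⟨o, ho, hz⟩ := hex
    refine ((Finset.sum_eq_single_of_mem o ho (fun o' _ hne => if_neg (fun hz' : Z ω = some (h o') =>
      hne (hh (Option.some.inj (hz'.symm.trans hz)))))).trans (if_pos hz)).trans_le ?_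
    rw [if_pos (hF ω o ho hz)]
  · push Not at hex
    refine (Finset.sum_eq_zero (fun o ho => if_neg (hex o ho))).trans_le ?_
    split_ifs <;> norm_num

theorem pr_nonneg {Ω : Type*} [Fintype Ω] (F : Ω → Prop) : 0 ≤ pr F := by
  unfold pr av
  refine div_nonneg (Finset.sum_nonneg fun ω _ => ?_) (Nat.cast_nonneg _)
  split_ifs <;> norm_num

/-- The events for the old memory (`none`) and for the new ones (`some a`). -/
def nxt (i : ℕ) (M : PM.Mem) : Option (List Bool) → PM.Mem
  | none => M
  | some a => M ++ [(i, a)]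

theorem nxt_inj (i : ℕ) (M : PM.Mem) : Function.Injective (nxt i M) := by
  intro o o' h
  cases o with
  | none =>
    cases o' with
    | none => rfl
    | some a' =>
      have := congrArg List.length h
      simp [nxt] at this
  | some a =>
    cases o' with
    | none =>
      have := congrArg List.length h
      simp [nxt] at this
    | some a' =>
      have h2 := List.append_cancel_left h
      simp only [List.cons.injEq, Prod.mk.injEq, true_and, and_true] at h2
      rw [h2]

theorem sum_qm (act : PM.View → ℕ) (c : ℕ) (x : List Bool) (m : ℕ) (s : List (ℕ × Bool)) (i : ℕ)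
    (M : PM.Mem) (hM : ∀ e ∈ M, e.1 < i) (S : Finset (List Bool)) :
    (∑ a ∈ S, qm act c x m s (i + 1) (M ++ [(i, a)])) + qm act c x m s (i + 1) M ≤
      qm act c x m s i M := by
  have h := sum_pr (insert none (S.map ⟨some, Option.some_injective _⟩))
    (fun y : Fin m → Bool => mem act c x (ov s (PM.coins y)) (i + 1)) (nxt i M) (nxt_inj i M)
    (fun y => mem act c x (ov s (PM.coins y)) i = some M) (fun y o _ hz => by
      cases o with
      | none => exact mem_old hM hz
      | some a => exact mem_new hz)
  rw [Finset.sum_insert (by simp), Finset.sum_map] at h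
  rw [add_comm]
  exact h

theorem len (hL : LvmStmt) : LenStmt := by
  intro act c x m s ε hε n
  induction n with
  | zero =>
    intro i M l _
    simp [pl]
  | succ n ih =>
    intro i M l hM
    obtain ⟨hnd, hlen, -, -⟩ := hL act x i M (PM.bd c x)
    set P := Pe act c x m s ε with hP
    set lv := lvM act x i M (PM.bd c x) with hlv
    set L : ℝ := 2 ^ PM.bd c x with hLdef
    have hL0 : 0 ≤ L := by positivity
    rw [pl, List.length_append, Nat.cast_add, List.length_flatMap,
      ← List.sum_toFinset _ hnd, Nat.cast_sum]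
    have hq : ∀ i M, 0 ≤ qm act c x m s i M := fun i M => pr_nonneg _
    have hblock : ∀ a ∈ lv.toFinset,
        (((if act (x, i, M, a) = 1 then [(l ++ lit act x i M a, (Sum.inl false : Lab))]
          else if act (x, i, M, a) = 2 then [(l ++ lit act x i M a, Sum.inl true)]
          else if act (x, i, M, a) = 3 ∧ PM.msize M + a.length ≤ PM.bd c x then
            (if P i (M ++ [(i, a)]) then
                pl act c x P n (i + 1) (M ++ [(i, a)]) (l ++ lit act x i M a)
              else [(l ++ lit act x i M a, Sum.inr (i, M ++ [(i, a)]))])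
          else []).length : ℕ) : ℝ) ≤
        1 + (1 + n * L) * (n + 1) * (qm act c x m s (i + 1) (M ++ [(i, a)]) / ε) := by
      intro a _
      have hqa := hq (i + 1) (M ++ [(i, a)])
      have h0 : 0 ≤ (1 + n * L) * (n + 1) * (qm act c x m s (i + 1) (M ++ [(i, a)]) / ε) := by
        positivity
      split_ifs with h1 h2 h3 h4
      · simp only [List.length_singleton, Nat.cast_one]; linarith
      · simp only [List.length_singleton, Nat.cast_one]; linarith
      · have h5 : ε ≤ qm act c x m s (i + 1) (M ++ [(i, a)]) := by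
          have := h4
          rw [hP, Pe, decide_eq_true_eq] at this
          exact this
        have h6 : 1 ≤ qm act c x m s (i + 1) (M ++ [(i, a)]) / ε := by
          rwa [one_le_div hε]
        have h7 := ih (i + 1) (M ++ [(i, a)]) (l ++ lit act x i M a) (fun e he => by
          rcases List.mem_append.1 he with h | h
          · exact (hM e h).trans (Nat.lt_succ_self i)
          · rw [List.mem_singleton.1 h]; exact Nat.lt_succ_self i)
        rw [mul_div_assoc] at h7
        have h8 : (1 + (n : ℝ) * L) * (1 + n * (qm act c x m s (i + 1) (M ++ [(i, a)]) / ε)) ≤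
            (1 + n * L) * ((n + 1) * (qm act c x m s (i + 1) (M ++ [(i, a)]) / ε)) := by
          refine mul_le_mul_of_nonneg_left ?_ (by positivity)
          linarith
        linarith
      · simp only [List.length_singleton, Nat.cast_one]; linarith
      · simp only [List.length_nil, Nat.cast_zero]; linarith
    have hrest := ih (i + 1) M l (fun e he => (hM e he).trans (Nat.lt_succ_self i))
    have hsum := sum_qm act c x m s i M hM lv.toFinset
    have hcard : ((lv.toFinset.card : ℕ) : ℝ) ≤ L := by
      rw [List.toFinset_card_of_nodup hnd, hLdef]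
      exact_mod_cast hlen
    have h1 := Finset.sum_le_sum hblock
    rw [Finset.sum_add_distrib, ← Finset.mul_sum, ← Finset.sum_div, Finset.sum_const,
      nsmul_eq_mul, mul_one] at h1
    set sq := ∑ a ∈ lv.toFinset, qm act c x m s (i + 1) (M ++ [(i, a)]) with hsq
    set q0 := qm act c x m s (i + 1) M with hq0
    set Q := qm act c x m s i M with hQ
    have hq0n : 0 ≤ q0 := hq _ _
    have hQn : 0 ≤ Q := hq _ _
    have hA : (0 : ℝ) ≤ 1 + n * L := by positivity
    have h2 : (1 + (n : ℝ) * L) * (n + 1) * (sq / ε) + (1 + n * L) * (1 + n * q0 / ε) ≤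
        (1 + n * L) * (1 + (n + 1) * Q / ε) := by
      have h3 : (n + 1 : ℝ) * (sq / ε) + (1 + n * q0 / ε) ≤ 1 + (n + 1) * Q / ε := by
        have h4 : (n + 1 : ℝ) * (sq + q0) / ε ≤ (n + 1) * Q / ε := by
          refine div_le_div_of_nonneg_right ?_ hε.le
          exact mul_le_mul_of_nonneg_left hsum (by positivity)
        have h5 : (n : ℝ) * q0 / ε ≤ (n + 1) * q0 / ε := by
          refine div_le_div_of_nonneg_right ?_ hε.le
          nlinarith
        have h6 : (n + 1 : ℝ) * (sq + q0) / ε = (n + 1) * (sq / ε) + (n + 1) * q0 / ε := by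
          ring
        linarith
      calc (1 + (n : ℝ) * L) * (n + 1) * (sq / ε) + (1 + n * L) * (1 + n * q0 / ε)
          = (1 + n * L) * ((n + 1 : ℝ) * (sq / ε) + (1 + n * q0 / ε)) := by ring
        _ ≤ _ := mul_le_mul_of_nonneg_left h3 hA
    have h3 : 0 ≤ L * ((n + 1) * Q / ε) := by positivity
    push_cast
    have h4 : (1 + ((n : ℝ) + 1) * L) * (1 + ((n : ℝ) + 1) * Q / ε) =
        L + L * ((n + 1) * Q / ε) + (1 + n * L) * (1 + (n + 1) * Q / ε) := by ring
    rw [h4]
    linarith

end Pool.Agent.Helper60.SM
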