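import Pool.Agent.Helper73.SM.Goals

/-!
# Project SM (MP_c307ca_nt), packet NV: consecutive approximants are different
-/

set_option autoImplicit false

namespace Pool.Agent.Helper60.SM

open Finset Polynomial Pool.Agent.Helper73.SM

/-- the polynomial with coefficients `(n + s choose j) (2n - j choose n)`, `j ≤ n` -/
noncomputable def PP (s : ℝ) (n : ℕ) : ℝ[X] :=
  ∑ j ∈ range (n + 1), monomial j (Ring.choose s j * ((2 * n - j).choose n : ℝ))

theorem PP_coeff (s : ℝ) (n m : ℕ) : (PP s n).coeff m =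
    if m < n + 1 then Ring.choose s m * ((2 * n - m).choose n : ℝ) else 0 := by
  unfold PP
  rw [finsetSum_coeff]
  simp only [coeff_monomial]
  by_cases h : m < n + 1
  · rw [if_pos h, sum_eq_single m]
    · rw [if_pos rfl]
    · intro j _ hj
      rw [if_neg hj]
    · intro h2
      exact absurd (mem_range.2 h) h2
  · rw [if_neg h]
    refine sum_eq_zero fun j hj => ?_
    rw [if_neg]
    rintro rfl
    exact h (mem_range.1 hj)

theorem PP_deg (s : ℝ) (n : ℕ) : (PP s n).natDegree ≤ n := by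
  rw [natDegree_le_iff_coeff_eq_zero]
  intro m hm
  rw [PP_coeff, if_neg (by omega)]

theorem PP_eval (s : ℝ) (n : ℕ) (x : ℝ) : (PP s n).eval x =
    ∑ j ∈ range (n + 1), Ring.choose s j * ((2 * n - j).choose n : ℝ) * x ^ j := by
  unfold PP
  rw [eval_finsetSum]
  simp only [eval_monomial]

/-- the power series of `(1 + X)^ν` -/
noncomputable def ff (ν : ℝ) : PowerSeries ℝ := PowerSeries.mk fun m => Ring.choose ν m

theorem rem (hS : StmtSAA) (ν : ℝ) (n : ℕ) :
    (PowerSeries.X : PowerSeries ℝ) ^ (2 * n + 1) ∣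
      ((PP ((n : ℝ) + ν) n : ℝ[X]) : PowerSeries ℝ) -
        ((PP ((n : ℝ) - ν) n : ℝ[X]) : PowerSeries ℝ) * ff ν := by
  rw [PowerSeries.X_pow_dvd_iff]
  intro m hm
  rw [map_sub, Polynomial.coeff_coe, PP_coeff, PowerSeries.coeff_mul,
    Finset.Nat.sum_antidiagonal_eq_sum_range_succ_mk]
  have h1 := hS ν n m (by omega)
  have h2 : ∑ k ∈ range m.succ, (PowerSeries.coeff k) ((PP ((n : ℝ) - ν) n : ℝ[X]) : PowerSeries ℝ) *
      (PowerSeries.coeff (m - k)) (ff ν) =
      ∑ j ∈ range (n + 1), (if j ≤ m then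
      Ring.choose ((n : ℝ) - ν) j * ((2 * n - j).choose n : ℝ) * Ring.choose ν (m - j) else 0) := by
    have h3 : ∀ k ∈ range m.succ,
        (PowerSeries.coeff k) ((PP ((n : ℝ) - ν) n : ℝ[X]) : PowerSeries ℝ) *
      (PowerSeries.coeff (m - k)) (ff ν) = if k < n + 1 then
      Ring.choose ((n : ℝ) - ν) k * ((2 * n - k).choose n : ℝ) * Ring.choose ν (m - k) else 0 := by
      intro k _
      rw [Polynomial.coeff_coe, PP_coeff, ff, PowerSeries.coeff_mk]
      split_ifs <;> simp
    rw [sum_congr rfl h3, ← sum_filter, ← sum_filter]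
    congr 1
    ext j
    simp only [mem_filter, mem_range]
    omega
  rw [h2, h1]
  by_cases h : m < n + 1
  · rw [if_pos h, if_pos (by omega), sub_self]
  · rw [if_neg h, if_neg (by omega), sub_self]

theorem goalNV (hS : StmtSAA) (hB : StmtBIN) : StmtNV := by
  intro ν x n hν hν1 hx
  have e1 : PA ν n x = (PP ((n : ℝ) + ν) n).eval x := by rw [PP_eval]; rfl
  have e2 : PB ν n x = (PP ((n : ℝ) - ν) n).eval x := by rw [PP_eval]; rfl
  have e3 : PA ν (n + 1) x = (PP (((n + 1 : ℕ) : ℝ) + ν) (n + 1)).eval x := by rw [PP_eval]; rfl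
  have e4 : PB ν (n + 1) x = (PP (((n + 1 : ℕ) : ℝ) - ν) (n + 1)).eval x := by rw [PP_eval]; rfl
  rw [e1, e2, e3, e4, ← eval_mul, ← eval_mul, ← eval_sub]
  obtain ⟨A, hA⟩ : ∃ A, A = PP ((n : ℝ) + ν) n := ⟨_, rfl⟩
  obtain ⟨B, hBB⟩ : ∃ B, B = PP ((n : ℝ) - ν) n := ⟨_, rfl⟩
  obtain ⟨A', hA'⟩ : ∃ A, A = PP (((n + 1 : ℕ) : ℝ) + ν) (n + 1) := ⟨_, rfl⟩
  obtain ⟨B', hB'⟩ : ∃ B, B = PP (((n + 1 : ℕ) : ℝ) - ν) (n + 1) := ⟨_, rfl⟩
  rw [← hA, ← hBB, ← hA', ← hB']
  obtain ⟨κ, hκ⟩ : ∃ κ, κ = A.coeff n * B'.coeff (n + 1) - A'.coeff (n + 1) * B.coeff n :=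
    ⟨_, rfl⟩
  have dA : A.natDegree ≤ n := by rw [hA]; exact PP_deg _ _
  have dB : B.natDegree ≤ n := by rw [hBB]; exact PP_deg _ _
  have dA' : A'.natDegree ≤ n + 1 := by rw [hA']; exact PP_deg _ _
  have dB' : B'.natDegree ≤ n + 1 := by rw [hB']; exact PP_deg _ _
  have hE : A * B' - A' * B = monomial (2 * n + 1) κ := by
    ext m
    rw [coeff_monomial]
    rcases lt_trichotomy m (2 * n + 1) with h | h | h
    · rw [if_neg (by omega)]
      have h1 : (PowerSeries.X : PowerSeries ℝ) ^ (2 * n + 1) ∣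
          ((A * B' - A' * B : ℝ[X]) : PowerSeries ℝ) := by
        have r1 := rem hS ν n
        have r2 := rem hS ν (n + 1)
        rw [← hA, ← hBB] at r1
        rw [← hA', ← hB'] at r2
        have h2 : ((A * B' - A' * B : ℝ[X]) : PowerSeries ℝ) =
            ((A : PowerSeries ℝ) - (B : PowerSeries ℝ) * ff ν) * (B' : PowerSeries ℝ) -
            ((A' : PowerSeries ℝ) - (B' : PowerSeries ℝ) * ff ν) * (B : PowerSeries ℝ) := by
          push_cast
          ring
        rw [h2]
        refine dvd_sub (Dvd.dvd.mul_right r1 _) (Dvd.dvd.mul_right ?_ _)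
        exact (pow_dvd_pow _ (by omega)).trans r2
      have h3 := (PowerSeries.X_pow_dvd_iff.1 h1) m h
      rwa [Polynomial.coeff_coe] at h3
    · rw [if_pos h.symm, h, coeff_sub]
      have e5 : 2 * n + 1 = n + (n + 1) := by ring
      have e6 : 2 * n + 1 = (n + 1) + n := by ring
      have e7 : (A * B').coeff (2 * n + 1) = A.coeff n * B'.coeff (n + 1) := by
        rw [e5]; exact coeff_mul_add_eq_of_natDegree_le dA dB'
      have e8 : (A' * B).coeff (2 * n + 1) = A'.coeff (n + 1) * B.coeff n := by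
        rw [e6]; exact coeff_mul_add_eq_of_natDegree_le dA' dB
      rw [e7, e8, hκ]
    · rw [if_neg (by omega)]
      apply coeff_eq_zero_of_natDegree_lt
      have q1 : (A * B').natDegree ≤ 2 * n + 1 :=
        natDegree_mul_le.trans (by omega)
      have q2 : (A' * B).natDegree ≤ 2 * n + 1 :=
        natDegree_mul_le.trans (by omega)
      exact lt_of_le_of_lt (natDegree_sub_le_of_le q1 q2) (by simpa using h)
  rw [hE, eval_monomial]
  refine mul_ne_zero ?_ (pow_ne_zero _ hx)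
  -- `κ ≠ 0`
  have c1 : A.coeff n = Ring.choose ((n : ℝ) + ν) n := by
    rw [hA, PP_coeff, if_pos (by omega)]
    have : 2 * n - n = n := by omega
    rw [this, Nat.choose_self, Nat.cast_one, mul_one]
  have c2 : B.coeff n = Ring.choose ((n : ℝ) + -ν) n := by
    rw [hBB, PP_coeff, if_pos (by omega)]
    have : 2 * n - n = n := by omega
    rw [this, Nat.choose_self, Nat.cast_one, mul_one, sub_eq_add_neg]
  have c3 : A'.coeff (n + 1) = Ring.choose ((n : ℝ) + 1 + ν) (n + 1) := by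
    rw [hA', PP_coeff, if_pos (by omega)]
    have : 2 * (n + 1) - (n + 1) = n + 1 := by omega
    rw [this, Nat.choose_self, Nat.cast_one, mul_one]
    push_cast
    rfl
  have c4 : B'.coeff (n + 1) = Ring.choose ((n : ℝ) + 1 + -ν) (n + 1) := by
    rw [hB', PP_coeff, if_pos (by omega)]
    have : 2 * (n + 1) - (n + 1) = n + 1 := by omega
    rw [this, Nat.choose_self, Nat.cast_one, mul_one]
    push_cast
    rfl
  have r1 := hB.recu ν n
  have r2 := hB.recu (-ν) n
  have p1 := hB.npos ν n (by linarith) hν1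
  have p2 := hB.npos (-ν) n (by linarith) (by linarith)
  rw [← c1] at r1 p1
  rw [← c2] at r2 p2
  rw [← c3] at r1
  rw [← c4] at r2
  intro h0
  rw [h0] at hκ
  have h1 : A.coeff n * B.coeff n * (2 * ν) = 0 := by
    linear_combination (n + 1 : ℝ) * hκ + A.coeff n * r2 - B.coeff n * r1
  have h2 : 0 < A.coeff n * B.coeff n * (2 * ν) := by positivity
  linarith

end Pool.Agent.Helper60.SM
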